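import Pool.Agent.W845.TR.Base

set_option autoImplicit false
open scoped BigOperators

/-!
Project TR (MP_985e29_pr): derivative of an expectation in the parameters.
-/

namespace Pool.Agent.W486.TR

open Pool.Agent.W845.TR

theorem der : St_DER := by
  intro d q c B f t
  induction B using Finset.induction_on generalizing f with
  | empty =>
    simp only [Ex_empty, Finset.sum_empty]
    exact hasDerivAt_const t _
  | insert z B hz ih =>
    have hfun : (fun t => Ex (fun x => q x + t * c x) (insert z B) f) =
        fun t => (q z + t * c z) * Ex (fun x => q x + t * c x) B (fun A => f (insert z A)) +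
          (1 - (q z + t * c z)) * Ex (fun x => q x + t * c x) B f := by
      funext s
      rw [Ex_insert _ B z hz]
    have hl : HasDerivAt (fun t => q z + t * c z) (c z) t := by
      have := ((hasDerivAt_id t).mul_const (c z)).const_add (q z)
      simpa using this
    have h1 := hl.mul (ih (fun A => f (insert z A)))
    have h2 := (hl.const_sub 1).mul (ih f)
    have h3 := h1.add h2
    have hfirst : Ex (fun x => q x + t * c x) (insert z B)
        (fun A => f (insert z A) - f (A.erase z)) =
        Ex (fun x => q x + t * c x) B (fun A => f (insert z A)) -
          Ex (fun x => q x + t * c x) B f := by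
      rw [Ex_insert _ B z hz]
      have e1 : Ex (fun x => q x + t * c x) B
          (fun A => f (insert z (insert z A)) - f ((insert z A).erase z)) =
          Ex (fun x => q x + t * c x) B (fun A => f (insert z A)) -
          Ex (fun x => q x + t * c x) B f := by
        rw [← Ex_sub]
        refine Ex_congr _ _ _ _ (fun A hA => ?_)
        have hzA : z ∉ A := fun h => hz (hA h)
        rw [Finset.insert_idem, Finset.erase_insert hzA]
      have e2 : Ex (fun x => q x + t * c x) B
          (fun A => f (insert z A) - f (A.erase z)) =
          Ex (fun x => q x + t * c x) B (fun A => f (insert z A)) -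
          Ex (fun x => q x + t * c x) B f := by
        rw [← Ex_sub]
        refine Ex_congr _ _ _ _ (fun A hA => ?_)
        have hzA : z ∉ A := fun h => hz (hA h)
        rw [Finset.erase_eq_of_notMem hzA]
      rw [e1, e2]; ring
    have hrest : ∀ x ∈ B, Ex (fun x => q x + t * c x) (insert z B)
        (fun A => f (insert x A) - f (A.erase x)) =
        (q z + t * c z) * Ex (fun x => q x + t * c x) B
          (fun A => f (insert z (insert x A)) - f (insert z (A.erase x))) +
        (1 - (q z + t * c z)) * Ex (fun x => q x + t * c x) B
          (fun A => f (insert x A) - f (A.erase x)) := by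
      intro x hx
      have hxz : x ≠ z := fun h => hz (h ▸ hx)
      rw [Ex_insert _ B z hz]
      congr 1
      congr 1
      refine Ex_congr _ _ _ _ (fun A hA => ?_)
      rw [Finset.insert_comm, Finset.erase_insert_of_ne (Ne.symm hxz)]
    rw [hfun, Finset.sum_insert hz, hfirst, Finset.sum_congr rfl
      (fun x hx => by rw [hrest x hx])]
    refine h3.congr_deriv ?_
    rw [Finset.mul_sum, Finset.mul_sum]
    have : ∑ x ∈ B, c x * ((q z + t * c z) * Ex (fun x => q x + t * c x) B
          (fun A => f (insert z (insert x A)) - f (insert z (A.erase x))) +
        (1 - (q z + t * c z)) * Ex (fun x => q x + t * c x) B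
          (fun A => f (insert x A) - f (A.erase x))) =
        ∑ x ∈ B, (q z + t * c z) * (c x * Ex (fun x => q x + t * c x) B
          (fun A => f (insert z (insert x A)) - f (insert z (A.erase x)))) +
        ∑ x ∈ B, (1 - (q z + t * c z)) * (c x * Ex (fun x => q x + t * c x) B
          (fun A => f (insert x A) - f (A.erase x))) := by
      rw [← Finset.sum_add_distrib]
      exact Finset.sum_congr rfl (fun x _ => by ring)
    rw [this]
    ring

end Pool.Agent.W486.TR
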