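import Pool.Agent.W845.TR.Base

set_option autoImplicit false
open scoped BigOperators

/-!
Project TR (MP_985e29_pr): deviation of the difference of two shifted environments.
-/

namespace Pool.Agent.W486.TR

open Pool.Agent.W845.TR

theorem image_perm_eq {d : ℕ} (B : Finset (S d)) (π : Equiv.Perm (S d))
    (h : ∀ y, y ∉ B → π y = y) : B.image π = B := by
  refine Finset.eq_of_subset_of_card_le ?_ ?_
  · intro z hz
    obtain ⟨y, hy, rfl⟩ := Finset.mem_image.1 hz
    by_contra hc
    have h1 := h _ hc
    have h2 := π.injective h1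
    rw [h2] at hc
    exact hc hy
  · rw [Finset.card_image_of_injective _ π.injective]

theorem flip_al {d : ℕ} (Lam : Finset (S d)) (b : Bool) (π : Equiv.Perm (S d))
    (A : Finset (S d)) (x : S d) :
    (al Lam b ((insert x A).image π) : ℝ) ≤ al Lam b ((A.erase x).image π) ∧
    (al Lam b ((A.erase x).image π) : ℝ) ≤ al Lam b ((insert x A).image π) + 1 := by
  rw [Finset.image_insert, Finset.image_erase π.injective]
  have := al_insert_erase Lam b (A.image π) (π x)
  constructor
  · exact_mod_cast this.1
  · exact_mod_cast this.2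

theorem dev : St_CONC → St_DEV := by
  intro hC d p κ Lam B R b π π' hp0 hp1 hκ hO hπ hπ' hR t ht
  classical
  set R1 := B.filter (fun y => π y ≠ π' y) with hR1
  have hR1B : R1 ⊆ B := Finset.filter_subset _ _
  have hR1R : R1 ⊆ R := fun y hy => hR y (Finset.mem_filter.1 hy).2
  have hB := image_perm_eq B π hπ
  have hB' := image_perm_eq B π' hπ'
  have hoff : ∀ y, y ∉ R1 → π y = π' y := by
    intro y hy
    by_contra hc
    by_cases hyB : y ∈ B
    · exact hy (Finset.mem_filter.2 ⟨hyB, hc⟩)
    · exact hc ((hπ y hyB).trans (hπ' y hyB).symm)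
  have hoffim : ∀ A : Finset (S d), A ⊆ B \ R1 → A.image π = A.image π' := by
    intro A hA
    exact Finset.image_congr (fun y hy => hoff y (Finset.mem_sdiff.1 (hA hy)).2)
  have hRim : R1.image π = R1.image π' := by
    have e : R1 = B \ (B \ R1) := (Finset.sdiff_sdiff_eq_self hR1B).symm
    rw [e, Finset.image_sdiff _ _ π.injective, Finset.image_sdiff _ _ π'.injective, hB, hB',
      hoffim _ (Finset.Subset.refl _)]
  have hmean : ∀ A ⊆ B \ R1, Ex (fun _ => p) R1 (fun A' =>
      (al Lam b ((A ∪ A').image π) : ℝ) - (al Lam b ((A ∪ A').image π') : ℝ)) = 0 := by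
    intro A hA
    rw [Ex_sub]
    have h1 := Ex_image p R1 π π.injective
      (fun A'' => (al Lam b (A.image π ∪ A'') : ℝ))
    have h2 := Ex_image p R1 π' π'.injective
      (fun A'' => (al Lam b (A.image π ∪ A'') : ℝ))
    rw [hRim] at h1
    rw [h1] at h2
    simp only [Finset.image_union]
    rw [h2, hoffim A hA]
    ring
  have hflip : ∀ A ⊆ B, ∀ x ∈ R1, |((al Lam b ((insert x A).image π) : ℝ) -
      (al Lam b ((insert x A).image π') : ℝ)) - ((al Lam b ((A.erase x).image π) : ℝ) -
      (al Lam b ((A.erase x).image π') : ℝ))| ≤ 2 := by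
    intro A _ x _
    have h1 := flip_al Lam b π A x
    have h2 := flip_al Lam b π' A x
    rw [abs_le]
    constructor <;> linarith [h1.1, h1.2, h2.1, h2.2]
  by_cases hcard : R1 = ∅
  · have hzero : Pr (fun _ => p) B (fun A => t ≤ (al Lam b (A.image π) : ℝ) -
        (al Lam b (A.image π') : ℝ)) = 0 := by
      unfold Pr
      have : Ex (fun _ => p) B (fun A => if t ≤ (al Lam b (A.image π) : ℝ) -
        (al Lam b (A.image π') : ℝ) then (1 : ℝ) else 0) = Ex (fun _ => p) B (fun _ => 0) := by
        refine Ex_congr _ _ _ _ (fun A hA => ?_)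
        have h1 : A.image π = A.image π' := hoffim A (by rw [hcard]; simpa using hA)
        rw [h1, sub_self, if_neg (not_le.2 ht)]
      rw [this, Ex_const]
    rw [hzero]
    exact (Real.exp_pos _).le
  · have hne : R1.Nonempty := Finset.nonempty_iff_ne_empty.2 hcard
    have hc1 : (0 : ℝ) < R1.card := by exact_mod_cast hne.card_pos
    have hc2 : (R1.card : ℝ) ≤ R.card := by exact_mod_cast Finset.card_le_card hR1R
    refine (hC d p κ B R1 (fun A => (al Lam b (A.image π) : ℝ) - (al Lam b (A.image π') : ℝ))
      hp0 hp1 hκ hO hR1B hflip hmean t ht).trans ?_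
    apply Real.exp_le_exp.2
    rw [neg_div, neg_div]
    apply neg_le_neg
    apply div_le_div_of_nonneg_left (sq_nonneg t) (by positivity)
    exact mul_le_mul_of_nonneg_left hc2 (by positivity)

end Pool.Agent.W486.TR
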