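import Pool.Agent.W845.TR.Base

set_option autoImplicit false

/-!
Project TR (MP_985e29_pr): matching out of a maximum independent set.
-/

namespace Pool.Agent.W486.TR

open Pool.Agent.W845.TR

theorem hall : St_HALL := by
  intro d H I hI
  obtain ⟨hIH, hInd, hcard⟩ := hI
  classical
  have key : ∀ b : Bool, ∃ f : {x // x ∈ (H \ I).filter (fun x => par x = b)} → S d,
      Function.Injective f ∧ ∀ x, f x ∈ I.filter (fun y => adj x.1 y) := by
    intro b
    rw [← Finset.all_card_le_biUnion_card_iff_exists_injective]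
    intro s
    set N := s.biUnion (fun x => I.filter (fun y => adj x.1 y)) with hN
    set X := s.map (Function.Embedding.subtype _) with hX
    have hXm : ∀ x, x ∈ X → (x ∈ H ∧ x ∉ I ∧ par x = b ∧
        ∃ h : x ∈ (H \ I).filter (fun x => par x = b), (⟨x, h⟩ : {x // x ∈ (H \ I).filter (fun x => par x = b)}) ∈ s) := by
      intro x hx
      rw [hX, Finset.mem_map] at hx
      obtain ⟨⟨y, hy⟩, hys, rfl⟩ := hx
      have hy2 := Finset.mem_filter.1 hy
      have hy3 := Finset.mem_sdiff.1 hy2.1
      exact ⟨hy3.1, hy3.2, hy2.2, hy, hys⟩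
    have hNI : N ⊆ I := by
      intro y hy
      obtain ⟨x, _, hx⟩ := Finset.mem_biUnion.1 hy
      exact (Finset.mem_filter.1 hx).1
    have hcross : ∀ x ∈ X, ∀ y ∈ I \ N, ¬ adj x y := by
      intro x hx y hy h
      obtain ⟨_, _, _, hm, hms⟩ := hXm x hx
      have hy2 := Finset.mem_sdiff.1 hy
      exact hy2.2 (Finset.mem_biUnion.2 ⟨⟨x, hm⟩, hms, Finset.mem_filter.2 ⟨hy2.1, h⟩⟩)
    have h1 : ((I \ N) ∪ X) ⊆ H := by
      intro x hx
      rcases Finset.mem_union.1 hx with h | h
      · exact hIH (Finset.mem_sdiff.1 h).1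
      · exact (hXm x h).1
    have h2 : Indep ((I \ N) ∪ X) := by
      intro x hx y hy h
      rcases Finset.mem_union.1 hx with hx | hx <;> rcases Finset.mem_union.1 hy with hy | hy
      · exact hInd x (Finset.mem_sdiff.1 hx).1 y (Finset.mem_sdiff.1 hy).1 h
      · exact hcross y hy x hx (adj_symm h)
      · exact hcross x hx y hy h
      · have h3 := par_adj h
        rw [(hXm x hx).2.2.1, (hXm y hy).2.2.1] at h3
        cases b <;> simp at h3
    have h3 := indep_card_le h1 h2
    have h4 : Disjoint (I \ N) X := by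
      rw [Finset.disjoint_left]
      intro x hx hx2
      exact (hXm x hx2).2.1 (Finset.mem_sdiff.1 hx).1
    have h5 : ((I \ N) ∪ X).card = (I \ N).card + X.card := Finset.card_union_of_disjoint h4
    have h6 : (I \ N).card + N.card = I.card := Finset.card_sdiff_add_card_eq_card hNI
    have h7 : X.card = s.card := Finset.card_map _
    omega
  choose f hf1 hf2 using key
  have hmem : ∀ x, x ∈ H \ I → x ∈ (H \ I).filter (fun z => par z = par x) := by
    intro x hx
    exact Finset.mem_filter.2 ⟨hx, rfl⟩
  refine ⟨fun x => if h : x ∈ H \ I then f (par x) ⟨x, hmem x h⟩ else x, ?_, ?_⟩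
  · intro x hx
    simp only [dif_pos hx]
    have := Finset.mem_filter.1 (hf2 (par x) ⟨x, hmem x hx⟩)
    exact this
  · intro x hx y hy hxy
    have hx' : x ∈ H \ I := hx
    have hy' : y ∈ H \ I := hy
    simp only [dif_pos hx', dif_pos hy'] at hxy
    have hx3 := (Finset.mem_filter.1 (hf2 (par x) ⟨x, hmem x hx'⟩)).2
    have hy3 := (Finset.mem_filter.1 (hf2 (par y) ⟨y, hmem y hy'⟩)).2
    have hpx := par_adj hx3
    have hpy := par_adj hy3
    rw [hxy] at hpx
    have hp : par x = par y := by
      rw [hpx] at hpy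
      simpa using hpy
    have gen : ∀ (b c : Bool) (hb : par x = b) (hc : par y = c) (hbc : b = c)
        (hxm : x ∈ (H \ I).filter (fun z => par z = b))
        (hym : y ∈ (H \ I).filter (fun z => par z = c)),
        f b ⟨x, hxm⟩ = f c ⟨y, hym⟩ → x = y := by
      intro b c _ _ hbc hxm hym h
      subst hbc
      have := hf1 b h
      exact congrArg Subtype.val this
    exact gen (par x) (par y) rfl rfl hp _ _ hxy

end Pool.Agent.W486.TR
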